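import Pool.Agent.W2helper58.GF.Stm
import Mathlib.Analysis.SpecificLimits.Normed
import Mathlib.Data.Nat.Size

/-!
# The numbers for the generator and for BPP (pieces `P_asymG`, `P_asymB`)
-/

namespace Pool.Agent.W2helper85.GF

open Filter Pool.Agent.NPC Pool.Agent.H620R2.Gauge Pool.Agent.W2helper58.GF

/-- the common estimate -/
theorem key (a m : ℕ) (x X E : ℝ) (hx : x ≤ X) (hX : 0 ≤ X) (h : a + 1 + X + m ≤ E) :
    (2 : ℝ) ^ a * (2 * Real.exp (-E)) * 2 ^ x ≤ (1 / 2) ^ m := by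
  have hl0 : 0 < Real.log 2 := Real.log_pos (by norm_num)
  have hl1 : Real.log 2 ≤ 1 := by
    have := Real.log_le_sub_one_of_pos (show (0 : ℝ) < 2 by norm_num)
    linarith
  have h1 : (2 : ℝ) ^ x ≤ Real.exp X := by
    rw [Real.rpow_def_of_pos (by norm_num)]
    apply Real.exp_le_exp.2
    calc Real.log 2 * x ≤ Real.log 2 * X := mul_le_mul_of_nonneg_left hx hl0.le
      _ ≤ 1 * X := mul_le_mul_of_nonneg_right hl1 hX
      _ = X := one_mul _
  have h2 : (2 : ℝ) ^ a ≤ Real.exp a := by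
    have : (2 : ℝ) = Real.exp (Real.log 2) := (Real.exp_log (by norm_num)).symm
    calc (2 : ℝ) ^ a = Real.exp (Real.log 2) ^ a := by rw [← this]
      _ = Real.exp (a * Real.log 2) := by rw [← Real.exp_nat_mul]
      _ ≤ Real.exp a := Real.exp_le_exp.2 (by
          have : (0 : ℝ) ≤ a := Nat.cast_nonneg a
          nlinarith)
  have h3 : (2 : ℝ) ≤ Real.exp 1 := by
    have := Real.add_one_le_exp (1 : ℝ)
    linarith
  have h4 : Real.exp (-(m : ℝ)) ≤ (1 / 2) ^ m := by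
    have : Real.exp (-1) ≤ 1 / 2 := by
      rw [Real.exp_neg, one_div]
      exact inv_anti₀ (by norm_num) h3
    calc Real.exp (-(m : ℝ)) = Real.exp (-1) ^ m := by
          rw [← Real.exp_nat_mul]; congr 1; ring
      _ ≤ (1 / 2) ^ m := pow_le_pow_left₀ (Real.exp_pos _).le this m
  calc (2 : ℝ) ^ a * (2 * Real.exp (-E)) * 2 ^ x
      ≤ Real.exp a * (Real.exp 1 * Real.exp (-E)) * Real.exp X := by gcongr
    _ = Real.exp (a + 1 + X - E) := by
        rw [← Real.exp_add, ← Real.exp_add, ← Real.exp_add]; congr 1; ring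
    _ ≤ Real.exp (-(m : ℝ)) := Real.exp_le_exp.2 (by linarith)
    _ ≤ (1 / 2) ^ m := h4

theorem logb_two_pow (k : ℕ) : Real.logb 2 ((2 ^ k : ℕ) : ℝ) = k := by
  push_cast
  rw [Real.logb_pow, Real.logb_self_eq_one (by norm_num), mul_one]

theorem size_le_self (m : ℕ) : Nat.size m ≤ m := Nat.size_le.2 Nat.lt_two_pow_self

theorem p_asymG : P_asymG := by
  intro f C hf
  refine ⟨C + 4, ?_⟩
  obtain ⟨N0, hN0⟩ := eventually_atTop.1 hf
  filter_upwards [eventually_ge_atTop N0,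
    eventually_ge_atTop (256 * (29 + (C + 5) ^ C))] with m hm1 hm2
  obtain ⟨N', hN', hfN⟩ := hN0 (2 ^ ((C + 4) * Nat.size m + m + 1))
    (hm1.trans ((Nat.lt_two_pow_self (n := m)).le.trans
      (Nat.pow_le_pow_right (by norm_num) (by omega))))
  refine ⟨N', hN', ?_⟩
  rw [logb_two_pow] at hfN
  rw [neg_div]
  refine key _ m (f N') _ _ hfN (by positivity) ?_
  -- natural numbers
  have hsz : m + 1 ≤ 2 ^ Nat.size m := Nat.lt_size_self m
  have h1 : (m + 1) ^ (C + 4) ≤ 2 ^ ((C + 4) * Nat.size m) := by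
    calc (m + 1) ^ (C + 4) ≤ (2 ^ Nat.size m) ^ (C + 4) := Nat.pow_le_pow_left hsz _
      _ = 2 ^ ((C + 4) * Nat.size m) := by rw [← pow_mul, mul_comm]
  have h2 : (C + 4) * Nat.size m + m + 1 ≤ (C + 5) * (m + 1) := by
    have := Nat.mul_le_mul_left (C + 4) (size_le_self m)
    nlinarith
  have h3 : ((C + 4) * Nat.size m + m + 1) ^ C ≤ (C + 5) ^ C * (m + 1) ^ (C + 3) := by
    calc ((C + 4) * Nat.size m + m + 1) ^ C ≤ ((C + 5) * (m + 1)) ^ C :=
          Nat.pow_le_pow_left h2 _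
      _ = (C + 5) ^ C * (m + 1) ^ C := mul_pow _ _ _
      _ ≤ (C + 5) ^ C * (m + 1) ^ (C + 3) :=
          Nat.mul_le_mul_left _ (Nat.pow_le_pow_right (by omega) (by omega))
  have h4 : (m + 3) ^ 3 ≤ 27 * (m + 1) ^ (C + 3) := by
    calc (m + 3) ^ 3 ≤ (3 * (m + 1)) ^ 3 := Nat.pow_le_pow_left (by omega) _
      _ = 27 * (m + 1) ^ 3 := by ring
      _ ≤ 27 * (m + 1) ^ (C + 3) :=
          Nat.mul_le_mul_left _ (Nat.pow_le_pow_right (by omega) (by omega))
  have h5 : m + 1 ≤ (m + 1) ^ (C + 3) := Nat.le_self_pow (by omega) _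
  have h6 : 256 * ((m + 3) ^ 3 + 1 + ((C + 4) * Nat.size m + m + 1) ^ C + m) ≤
      2 ^ ((C + 4) * Nat.size m) := by
    calc 256 * ((m + 3) ^ 3 + 1 + ((C + 4) * Nat.size m + m + 1) ^ C + m)
        ≤ 256 * (29 + (C + 5) ^ C) * (m + 1) ^ (C + 3) := by nlinarith
      _ ≤ (m + 1) * (m + 1) ^ (C + 3) := Nat.mul_le_mul_right _ (by omega)
      _ = (m + 1) ^ (C + 4) := by ring
      _ ≤ _ := h1
  have h7 : (256 : ℝ) * (((m + 3) ^ 3 : ℕ) + 1 + ((C + 4) * Nat.size m + m + 1 : ℕ) ^ C + m) ≤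
      2 ^ ((C + 4) * Nat.size m) := by exact_mod_cast h6
  rw [le_div_iff₀ (by norm_num)]
  linarith

theorem ev_poly_lt (C : ℕ) : ∀ᶠ x : ℕ in atTop, 1024 * ((3 * x) ^ C + 2 * x) < 2 ^ x := by
  have h1 : Tendsto (fun n : ℕ => (n : ℝ) ^ (C + 1) / 2 ^ n) atTop (nhds 0) :=
    tendsto_pow_const_div_const_pow_of_one_lt (C + 1) (by norm_num)
  have hpos : (0 : ℝ) < 1 / (1024 * (3 ^ C + 2)) := by positivity
  filter_upwards [h1.eventually (gt_mem_nhds hpos), eventually_ge_atTop 1] with x hx hx1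
  have h2 : (x : ℝ) ^ (C + 1) * (1024 * (3 ^ C + 2)) < 2 ^ x := by
    rw [div_lt_div_iff₀ (by positivity) (by positivity)] at hx
    linarith
  have h3 : x ^ (C + 1) * (1024 * (3 ^ C + 2)) < 2 ^ x := by exact_mod_cast h2
  have h4 : x ^ C ≤ x ^ (C + 1) := Nat.pow_le_pow_right hx1 (by omega)
  have h5 : x ≤ x ^ (C + 1) := Nat.le_self_pow (by omega) _
  calc 1024 * ((3 * x) ^ C + 2 * x) = 1024 * (3 ^ C * x ^ C + 2 * x) := by rw [mul_pow]
    _ ≤ 1024 * (3 ^ C * x ^ (C + 1) + 2 * x ^ (C + 1)) := by gcongr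
    _ = x ^ (C + 1) * (1024 * (3 ^ C + 2)) := by ring
    _ < 2 ^ x := h3

theorem smpT_eval (b : Polynomial ℕ) (C n : ℕ) :
    (smpT b C).eval n = 1024 * ((3 * b.eval n) ^ C + 2 * n + 2) := by
  simp [smpT]

theorem p_asymB : P_asymB := by
  intro f C b hf hb
  obtain ⟨N0, hN0⟩ := eventually_atTop.1 hf
  obtain ⟨x0, hx0⟩ := eventually_atTop.1 (ev_poly_lt C)
  filter_upwards [eventually_ge_atTop N0, eventually_ge_atTop x0] with n hn1 hn2
  set T := (smpT b C).eval n with hT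
  have hTe : T = 1024 * ((3 * b.eval n) ^ C + 2 * n + 2) := smpT_eval b C n
  have hbn : n + 1 ≤ b.eval n := hb n
  obtain ⟨N', hN', hfN⟩ := hN0 (2 ^ (Nat.size T + b.eval n + 1))
    (hn1.trans ((Nat.lt_two_pow_self (n := n)).le.trans
      (Nat.pow_le_pow_right (by norm_num) (by omega))))
  refine ⟨N', hN', ?_⟩
  rw [logb_two_pow] at hfN
  rw [neg_div]
  refine key n n (f N') _ _ hfN (by positivity) ?_
  have h1 : T < 2 ^ b.eval n := by
    calc T = 1024 * ((3 * b.eval n) ^ C + 2 * n + 2) := hTe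
      _ ≤ 1024 * ((3 * b.eval n) ^ C + 2 * b.eval n) := by gcongr 1024 * ?_; omega
      _ < 2 ^ b.eval n := hx0 _ (by omega)
  have h2 : Nat.size T ≤ b.eval n := Nat.size_le.2 h1
  have h3 : (Nat.size T + b.eval n + 1) ^ C ≤ (3 * b.eval n) ^ C :=
    Nat.pow_le_pow_left (by omega) _
  have h4 : 256 * (n + 1 + (Nat.size T + b.eval n + 1) ^ C + n) ≤ T := by
    calc 256 * (n + 1 + (Nat.size T + b.eval n + 1) ^ C + n)
        ≤ 1024 * ((3 * b.eval n) ^ C + 2 * n + 2) := by omega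
      _ = T := hTe.symm
  have h5 : (256 : ℝ) * (n + 1 + ((Nat.size T + b.eval n + 1 : ℕ) : ℝ) ^ C + n) ≤ T := by
    exact_mod_cast h4
  rw [le_div_iff₀ (by norm_num)]
  linarith

end Pool.Agent.W2helper85.GF
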